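import Mathlib

set_option autoImplicit false

/-!
# Binary codes closed under a coordinatewise operation: inclusion-minimal difference sets
-/

namespace Pool.Agent.R181.CC

open Finset

/-- A Boolean operation with `k` arguments. -/
abbrev Op (k : ℕ) := (Fin k → ZMod 2) → ZMod 2

/-- `g` is affine with the vector `a` of coefficients. -/
def AffineWith {k : ℕ} (a : Fin k → ZMod 2) (g : Op k) : Prop :=
  ∃ b : ZMod 2, ∀ v, g v = b + ∑ j, a j * v j

/-- `g` is affine. -/
def Affine {k : ℕ} (g : Op k) : Prop := ∃ a, AffineWith a g

/-- The dual operation: all arguments and the value are complemented. -/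
def dual {k : ℕ} (g : Op k) : Op k := fun v => g (fun j => v j + 1) + 1

/-- The code `C` is closed under the coordinatewise operation given by `f`: from `k` words of `C` one
obtains a word of `C` if `f i` is applied to the `i`-th letters, for all `i`. -/
def Closed {k : ℕ} {ι : Type*} (f : ι → Op k) (C : Finset (ι → ZMod 2)) : Prop :=
  ∀ x : Fin k → ι → ZMod 2, (∀ j, x j ∈ C) → (fun i => f i (fun j => x j i)) ∈ C

/-- The minimum distance of `C` is at least `d`. -/
def MinDist {ι : Type*} [Fintype ι] (d : ℕ) (C : Finset (ι → ZMod 2)) : Prop :=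
  ∀ x ∈ C, ∀ y ∈ C, x ≠ y → d ≤ hammingDist x y

theorem z2_ne {a b : ZMod 2} (h : a ≠ b) : b = a + 1 := by
  revert a b; decide

theorem z2_iff_add {p q r s : ZMod 2} (h : p = q ↔ r = s) : p + r = q + s := by
  revert p q r s; decide

theorem affine_of_deriv {k : ℕ} (H : Op k)
    (h : ∀ l : Fin k, ∀ c c' : Fin k → ZMod 2,
      H (Function.update c l 0) + H (Function.update c l 1) =
      H (Function.update c' l 0) + H (Function.update c' l 1)) : Affine H := by
  classical
  refine ⟨fun l => H (Function.update 0 l 0) + H (Function.update 0 l 1), H 0, fun v => ?_⟩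
  have key : ∀ s : Finset (Fin k), H (fun j => if j ∈ s then v j else 0) =
      H 0 + ∑ l ∈ s, (H (Function.update 0 l 0) + H (Function.update 0 l 1)) * v l := by
    intro s
    induction s using Finset.induction_on with
    | empty => simp; rfl
    | insert l s hl ih =>
      have e1 : (fun j => if j ∈ insert l s then v j else 0) =
          Function.update (fun j => if j ∈ s then v j else 0) l (v l) := by
        funext j
        by_cases hj : j = l
        · subst hj; simp
        · simp [hj]
      have e0 : Function.update (fun j => if j ∈ s then v j else 0) l 0 =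
          (fun j => if j ∈ s then v j else 0) := by
        funext j
        by_cases hj : j = l
        · subst hj; simp [hl]
        · simp [hj]
      rw [e1, sum_insert hl]
      have h2 := h l (fun j => if j ∈ s then v j else 0) 0
      rw [e0] at h2
      have hv : v l = 0 ∨ v l = 1 := by
        have : ∀ a : ZMod 2, a = 0 ∨ a = 1 := by decide
        exact this _
      rcases hv with hv | hv
      · rw [hv, e0, ih]; ring
      · rw [hv, mul_one, ← h2]
        rw [ih]
        have h4 : ∀ t t0 t1 : ZMod 2, t = t0 + (t0 + t1 + t + t1) := by decide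
        exact h4 _ _ _
  have := key univ
  simpa using this

theorem affine_shift {k : ℕ} (g : Op k) (t : ZMod 2)
    (h : Affine (fun c : Fin k → ZMod 2 => g (fun j => t + c j))) : Affine g := by
  obtain ⟨a, b, hb⟩ := h
  refine ⟨a, b + ∑ j, a j * t, fun v => ?_⟩
  have := hb (fun j => t + v j)
  have e : (fun j => t + (t + v j)) = v := by
    funext j
    have : ∀ t v : ZMod 2, t + (t + v) = v := by decide
    exact this _ _
  simp only [e] at this
  rw [this, add_assoc, ← sum_add_distrib]
  congr 1
  apply sum_congr rfl
  intro j _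
  ring

variable {k : ℕ} {ι : Type*} [Fintype ι] [DecidableEq ι]

/-- The set of coordinates in which two words differ. -/
def dset (x y : ι → ZMod 2) : Finset ι := univ.filter (fun i => x i ≠ y i)

omit [DecidableEq ι] in
theorem mem_dset {x y : ι → ZMod 2} {i : ι} : i ∈ dset x y ↔ x i ≠ y i := by
  simp [dset]

omit [DecidableEq ι] in
theorem card_dset (x y : ι → ZMod 2) : (dset x y).card = hammingDist x y := rfl

/-- A pair of words of `C` with an inclusion-minimal set of differences. -/
def IsMin (C : Finset (ι → ZMod 2)) (x y : ι → ZMod 2) : Prop :=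
  x ∈ C ∧ y ∈ C ∧ x ≠ y ∧
    ∀ x' ∈ C, ∀ y' ∈ C, x' ≠ y' → dset x' y' ⊆ dset x y → dset x' y' = dset x y

omit [DecidableEq ι] in
theorem exists_isMin (C : Finset (ι → ZMod 2)) (z w : ι → ZMod 2) (hz : z ∈ C) (hw : w ∈ C)
    (hzw : z ≠ w) : ∃ x y, IsMin C x y ∧ dset x y ⊆ dset z w := by
  classical
  have hne : ((C ×ˢ C).filter (fun p => p.1 ≠ p.2 ∧ dset p.1 p.2 ⊆ dset z w)).Nonempty :=
    ⟨(z, w), by simp [hz, hw, hzw]⟩
  obtain ⟨⟨x, y⟩, hp, hmin⟩ := exists_min_image _ (fun p => (dset p.1 p.2).card) hne
  simp only [mem_filter, mem_product] at hp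
  obtain ⟨⟨hx, hy⟩, hxy, hsub⟩ := hp
  refine ⟨x, y, ⟨hx, hy, hxy, ?_⟩, hsub⟩
  intro x' hx' y' hy' hne' hsub'
  have := hmin (x', y') (by simp only [mem_filter, mem_product]; exact ⟨⟨hx', hy'⟩, hne', hsub'.trans hsub⟩)
  exact eq_of_subset_of_card_le hsub' this

omit [DecidableEq ι] in
theorem IsMin.key {f : ι → Op k} {C : Finset (ι → ZMod 2)} (hC : Closed f C) {x y : ι → ZMod 2}
    (h : IsMin C x y) (X X' : Fin k → ι → ZMod 2) (hX : ∀ j, X j ∈ C) (hX' : ∀ j, X' j ∈ C)
    (hout : ∀ i, x i = y i → ∀ j, X j i = X' j i) {i i' : ι} (hi : x i ≠ y i) (hi' : x i' ≠ y i') :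
    (f i (fun j => X j i) = f i (fun j => X' j i) ↔
      f i' (fun j => X j i') = f i' (fun j => X' j i')) := by
  classical
  by_cases e : (fun i => f i (fun j => X j i)) = (fun i => f i (fun j => X' j i))
  · exact iff_of_true (congrFun e i) (congrFun e i')
  · have hsub : dset (fun i => f i (fun j => X j i)) (fun i => f i (fun j => X' j i)) ⊆ dset x y := by
      intro a ha
      rw [mem_dset] at ha ⊢
      intro hxy
      apply ha
      have : (fun j => X j a) = (fun j => X' j a) := by
        funext j; exact hout a hxy j
      rw [this]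
    have heq := h.2.2.2 _ (hC X hX) _ (hC X' hX') e hsub
    have h1 : i ∈ dset x y := mem_dset.2 hi
    have h2 : i' ∈ dset x y := mem_dset.2 hi'
    rw [← heq, mem_dset] at h1 h2
    exact iff_of_false h1 h2

/-- Words `x` or `y`, according to the letters of `c`. -/
def mix (x y : ι → ZMod 2) (c : Fin k → ZMod 2) : Fin k → ι → ZMod 2 :=
  fun j => if c j = 0 then x else y

omit [Fintype ι] [DecidableEq ι] in
theorem mix_apply {x y : ι → ZMod 2} {i : ι} (hi : x i ≠ y i) (c : Fin k → ZMod 2) (j : Fin k) :
    mix x y c j i = x i + c j := by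
  have h := z2_ne hi
  unfold mix
  split_ifs with h0
  · rw [h0, add_zero]
  · rw [h]
    congr 1
    have : ∀ a : ZMod 2, a ≠ 0 → 1 = a := by decide
    exact this _ h0

omit [Fintype ι] [DecidableEq ι] in
theorem mix_apply' {x y : ι → ZMod 2} {i : ι} (hi : x i = y i) (c : Fin k → ZMod 2) (j : Fin k) :
    mix x y c j i = x i := by
  unfold mix
  split_ifs <;> simp [hi]

omit [DecidableEq ι] in
theorem IsMin.mem_mix {C : Finset (ι → ZMod 2)} {x y : ι → ZMod 2} (h : IsMin C x y)
    (c : Fin k → ZMod 2) (j : Fin k) : mix x y c j ∈ C := by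
  unfold mix
  split_ifs
  · exact h.1
  · exact h.2.1

omit [DecidableEq ι] in
theorem IsMin.formal {f : ι → Op k} {C : Finset (ι → ZMod 2)} (hC : Closed f C) {x y : ι → ZMod 2}
    (h : IsMin C x y) (c c' : Fin k → ZMod 2) {i i' : ι} (hi : x i ≠ y i) (hi' : x i' ≠ y i') :
    (f i (fun j => x i + c j) = f i (fun j => x i + c' j) ↔
      f i' (fun j => x i' + c j) = f i' (fun j => x i' + c' j)) := by
  have := h.key hC (mix x y c) (mix x y c') (h.mem_mix c) (h.mem_mix c')
    (fun a ha j => by rw [mix_apply' ha, mix_apply' ha]) hi hi'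
  simpa only [mix_apply hi, mix_apply hi'] using this

omit [DecidableEq ι] in
/-- On an inclusion-minimal difference set that meets the non-affine coordinates every word of the
code agrees with one of the two words. -/
theorem IsMin.pattern {f : ι → Op k} {C : Finset (ι → ZMod 2)} (hC : Closed f C) {x y : ι → ZMod 2}
    (h : IsMin C x y) {i i' : ι} (hi : x i ≠ y i) (hi' : x i' ≠ y i') (hf : ¬ Affine (f i))
    (z : ι → ZMod 2) (hz : z ∈ C) : z i + x i = z i' + x i' := by
  classical
  by_contra hne
  apply hf
  apply affine_shift _ (x i)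
  apply affine_of_deriv
  intro l c c'
  -- the words with `z` in the `l`-th place
  have hW : ∀ c : Fin k → ZMod 2, ∀ j, Function.update (mix x y c) l z j ∈ C := by
    intro c j
    by_cases hj : j = l
    · subst hj; simpa using hz
    · simpa [hj] using h.mem_mix c j
  have hout : ∀ a, x a = y a → ∀ j, Function.update (mix x y c) l z j a =
      Function.update (mix x y c') l z j a := by
    intro a ha j
    by_cases hj : j = l
    · subst hj; simp
    · simp only [Function.update_of_ne hj]
      rw [mix_apply' ha, mix_apply' ha]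
  have hev : ∀ c : Fin k → ZMod 2, ∀ a, x a ≠ y a → (fun j => Function.update (mix x y c) l z j a) =
      (fun j => x a + Function.update c l (z a + x a) j) := by
    intro c a ha
    funext j
    by_cases hj : j = l
    · subst hj
      simp only [Function.update_self]
      have : ∀ p q : ZMod 2, p = q + (p + q) := by decide
      exact this _ _
    · simp only [Function.update_of_ne hj]
      rw [mix_apply ha]
  have h1 := h.key hC (Function.update (mix x y c) l z) (Function.update (mix x y c') l z)
    (hW c) (hW c') hout hi hi'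
  rw [hev c i hi, hev c' i hi, hev c i' hi', hev c' i' hi'] at h1
  have h2 := h.formal hC (Function.update c l (z i' + x i')) (Function.update c' l (z i' + x i')) hi hi'
  have h3 := h1.trans h2.symm
  have h4 := z2_ne hne
  have h5 : ∀ a : ZMod 2, a = 0 ∨ a = 1 := by decide
  rcases h5 (z i + x i) with h6 | h6
  · rw [h4, h6] at h3
    have h7 : (0 : ZMod 2) + 1 = 1 := by decide
    rw [h7] at h3
    exact z2_iff_add h3
  · rw [h4, h6] at h3
    have h7 : (1 : ZMod 2) + 1 = 0 := by decide
    rw [h7] at h3
    have := z2_iff_add h3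
    rw [add_comm (f i fun j => x i + Function.update c l 0 j),
      add_comm (f i fun j => x i + Function.update c' l 0 j)]
    exact this

omit [DecidableEq ι] in
/-- An inclusion-minimal difference set that meets the non-affine coordinates lies in one class. -/
theorem IsMin.cls {f : ι → Op k} {C : Finset (ι → ZMod 2)} (hC : Closed f C) {x y : ι → ZMod 2}
    (h : IsMin C x y) {i i' : ι} (hi : x i ≠ y i) (hi' : x i' ≠ y i') (hf : ¬ Affine (f i)) :
    f i' = f i ∨ f i' = dual (f i) := by
  classical
  have hp : ∀ c : Fin k → ZMod 2, f i (fun j => x i + c j) + x i = f i' (fun j => x i' + c j) + x i' := by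
    intro c
    have hm := hC (mix x y c) (h.mem_mix c)
    have := h.pattern hC hi hi' hf _ hm
    simp only [mix_apply hi, mix_apply hi'] at this
    exact this
  by_cases hx : x i = x i'
  · left
    funext v
    have := hp (fun j => x i + v j)
    have e : ∀ t u : ZMod 2, t + (t + u) = u := by decide
    rw [← hx] at this
    simp only [e] at this
    exact (add_right_cancel this).symm
  · right
    have hx' := z2_ne hx
    funext v
    have := hp (fun j => x i' + v j)
    have e : ∀ t u : ZMod 2, t + (t + u) = u := by decide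
    have e' : ∀ t u : ZMod 2, t + (t + 1 + u) = u + 1 := by decide
    rw [hx'] at this
    simp only [e, e'] at this
    unfold dual
    have e3 : ∀ p q r : ZMod 2, p + r = q + (r + 1) → q = p + 1 := by decide
    exact e3 _ _ _ this

end Pool.Agent.R181.CC
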