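import Pool.Agent.R181.CC.Upper

set_option autoImplicit false

/-!
# Binary codes closed under a coordinatewise operation: constructions and the exact maximum
-/

namespace Pool.Agent.R181.CC

open Finset

/-- The largest size of a binary code of length `n` with minimum distance at least `d`. -/
noncomputable def maxCode (n d : ℕ) : ℕ :=
  sSup {m | ∃ C : Finset (Fin n → ZMod 2), MinDist d C ∧ C.card = m}

/-- The largest size of a linear binary code of length `n` with minimum distance at least `d`. -/
noncomputable def maxLinear (n d : ℕ) : ℕ :=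
  sSup {m | ∃ V : Submodule (ZMod 2) (Fin n → ZMod 2),
    (∀ x ∈ V, x ≠ 0 → d ≤ hammingNorm x) ∧ Nat.card V = m}

/-- The largest size of a code with minimum distance at least `d`, whose coordinates are indexed by
`ι`, that is closed under the coordinatewise operation given by `f`. -/
noncomputable def maxClosed {k : ℕ} {ι : Type*} [Fintype ι] (f : ι → Op k) (d : ℕ) : ℕ :=
  sSup {m | ∃ C : Finset (ι → ZMod 2), Closed f C ∧ MinDist d C ∧ C.card = m}

section sup

variable {k : ℕ} {ι : Type*} [Fintype ι]

theorem maxClosed_le {f : ι → Op k} {d M : ℕ}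
    (h : ∀ C : Finset (ι → ZMod 2), Closed f C → MinDist d C → C.card ≤ M) : maxClosed f d ≤ M := by
  unfold maxClosed
  rcases Set.eq_empty_or_nonempty
    {m | ∃ C : Finset (ι → ZMod 2), Closed f C ∧ MinDist d C ∧ C.card = m} with he | hne
  · rw [he]; simp
  · apply csSup_le hne
    rintro m ⟨C, h1, h2, rfl⟩
    exact h C h1 h2

theorem le_maxClosed {f : ι → Op k} {d : ℕ} {C : Finset (ι → ZMod 2)} (h1 : Closed f C)
    (h2 : MinDist d C) : C.card ≤ maxClosed f d := by
  classical
  refine le_csSup ?_ ⟨C, h1, h2, rfl⟩
  refine ⟨Fintype.card (ι → ZMod 2), ?_⟩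
  rintro m ⟨C, -, -, rfl⟩
  exact card_le_univ C

theorem le_maxCode {n d : ℕ} {C : Finset (Fin n → ZMod 2)} (h2 : MinDist d C) :
    C.card ≤ maxCode n d := by
  refine le_csSup ?_ ⟨C, h2, rfl⟩
  refine ⟨Fintype.card (Fin n → ZMod 2), ?_⟩
  rintro m ⟨C, -, rfl⟩
  exact card_le_univ C

theorem exists_maxCode (n d : ℕ) : ∃ C : Finset (Fin n → ZMod 2), MinDist d C ∧ C.card = maxCode n d := by
  have : maxCode n d ∈ {m | ∃ C : Finset (Fin n → ZMod 2), MinDist d C ∧ C.card = m} := by
    apply Nat.sSup_mem
    · exact ⟨0, ∅, by intro x hx; simp at hx, rfl⟩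
    · refine ⟨Fintype.card (Fin n → ZMod 2), ?_⟩
      rintro m ⟨C, -, rfl⟩
      exact card_le_univ C
  exact this

theorem bdd_linear (n d : ℕ) : BddAbove {m | ∃ V : Submodule (ZMod 2) (Fin n → ZMod 2),
    (∀ x ∈ V, x ≠ 0 → d ≤ hammingNorm x) ∧ Nat.card V = m} := by
  refine ⟨Nat.card (Fin n → ZMod 2), ?_⟩
  rintro m ⟨V, -, rfl⟩
  exact Nat.card_le_card_of_injective (fun x : V => (x : Fin n → ZMod 2)) Subtype.val_injective

theorem le_maxLinear {n d : ℕ} {V : Submodule (ZMod 2) (Fin n → ZMod 2)}
    (h : ∀ x ∈ V, x ≠ 0 → d ≤ hammingNorm x) : Nat.card V ≤ maxLinear n d :=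
  le_csSup (bdd_linear n d) ⟨V, h, rfl⟩

theorem exists_maxLinear (n d : ℕ) : ∃ V : Submodule (ZMod 2) (Fin n → ZMod 2),
    (∀ x ∈ V, x ≠ 0 → d ≤ hammingNorm x) ∧ Nat.card V = maxLinear n d := by
  have : maxLinear n d ∈ {m | ∃ V : Submodule (ZMod 2) (Fin n → ZMod 2),
      (∀ x ∈ V, x ≠ 0 → d ≤ hammingNorm x) ∧ Nat.card V = m} := by
    apply Nat.sSup_mem
    · refine ⟨_, ⊥, ?_, rfl⟩
      intro x hx hx0
      exact absurd (by simpa using hx) hx0
    · exact bdd_linear n d
  exact this

theorem one_le_maxLinear (n d : ℕ) : 1 ≤ maxLinear n d := by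
  have := le_maxLinear (n := n) (d := d) (V := ⊥) (by
    intro x hx hx0
    exact absurd (by simpa using hx) hx0)
  simpa using this

end sup

section transport

variable {κ : Type*} [Fintype κ] {n : ℕ}

theorem hammingDist_comp (e : κ ≃ Fin n) (x y : Fin n → ZMod 2) :
    hammingDist (fun i => x (e i)) (fun i => y (e i)) = hammingDist x y := by
  classical
  unfold hammingDist
  apply card_bij (fun i _ => e i)
  · intro i hi
    simpa using hi
  · intro i _ j _ h
    exact e.injective h
  · intro j hj
    refine ⟨e.symm j, ?_, by simp⟩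
    simpa using hj

open Classical in
theorem minDist_pull (e : κ ≃ Fin n) {d : ℕ} {C : Finset (Fin n → ZMod 2)} (h : MinDist d C) :
    MinDist d (C.image (fun x i => x (e i))) := by
  intro u hu v hv hne
  obtain ⟨x, hx, rfl⟩ := mem_image.1 hu
  obtain ⟨y, hy, rfl⟩ := mem_image.1 hv
  rw [hammingDist_comp]
  exact h x hx y hy (fun h => hne (by rw [h]))

open Classical in
theorem card_pull (e : κ ≃ Fin n) (C : Finset (Fin n → ZMod 2)) :
    (C.image (fun x i => x (e i))).card = C.card := by
  apply card_image_of_injective
  intro x y h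
  funext j
  have := congrFun h (e.symm j)
  simpa using this

open Classical in
theorem minDist_push (e : κ ≃ Fin n) {d : ℕ} {C : Finset (κ → ZMod 2)} (h : MinDist d C) :
    MinDist d (C.image (fun x i => x (e.symm i))) := by
  intro u hu v hv hne
  obtain ⟨x, hx, rfl⟩ := mem_image.1 hu
  obtain ⟨y, hy, rfl⟩ := mem_image.1 hv
  have := hammingDist_comp e (fun i => x (e.symm i)) (fun i => y (e.symm i))
  simp only [Equiv.symm_apply_apply] at this
  rw [← this]
  exact h x hx y hy (fun h => hne (by rw [h]))

open Classical in
theorem card_push (e : κ ≃ Fin n) (C : Finset (κ → ZMod 2)) :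
    (C.image (fun x i => x (e.symm i))).card = C.card := by
  apply card_image_of_injective
  intro x y h
  funext j
  have := congrFun h (e j)
  simpa using this

/-- A code closed under `x + y + z` is not larger than a linear code. -/
theorem card_le_maxLinear {n d : ℕ} {C : Finset (Fin n → ZMod 2)} (hd : MinDist d C)
    (hC : ∀ x ∈ C, ∀ y ∈ C, ∀ z ∈ C, x + y + z ∈ C) : C.card ≤ maxLinear n d := by
  classical
  rcases C.eq_empty_or_nonempty with he | ⟨x0, hx0⟩
  · simp [he]
  have e2 : ∀ x : Fin n → ZMod 2, x + x = 0 := by
    intro x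
    funext i
    have : ∀ t : ZMod 2, t + t = 0 := by decide
    exact this _
  let V : Submodule (ZMod 2) (Fin n → ZMod 2) :=
    { carrier := {x | x + x0 ∈ C}
      zero_mem' := by simpa using hx0
      add_mem' := by
        intro a b ha hb
        have := hC _ ha _ hb _ hx0
        have e : a + x0 + (b + x0) + x0 = a + b + x0 := by
          rw [show a + x0 + (b + x0) + x0 = a + b + x0 + (x0 + x0) by abel, e2, add_zero]
        rw [e] at this
        exact this
      smul_mem' := by
        intro c x hx
        have : c = 0 ∨ c = 1 := by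
          have : ∀ t : ZMod 2, t = 0 ∨ t = 1 := by decide
          exact this _
        rcases this with rfl | rfl
        · simpa using hx0
        · simpa using hx }
  have hV : ∀ x ∈ V, x ≠ 0 → d ≤ hammingNorm x := by
    intro x hx hx1
    have hx' : x + x0 ∈ C := hx
    have hne : x + x0 ≠ x0 := by
      intro h
      apply hx1
      have : x + x0 + x0 = x0 + x0 := by rw [h]
      rwa [add_assoc, e2, add_zero] at this
    have := hd _ hx' _ hx0 hne
    have e5 : -(x + x0) + x0 = x := by
      funext i
      have : ∀ s t : ZMod 2, -(s + t) + t = s := by decide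
      exact this _ _
    rwa [hammingDist_eq_hammingNorm, e5] at this
  have hcard : Nat.card V = C.card := by
    have h0 : Nat.card {x // x ∈ C} = C.card := by
      rw [Nat.card_eq_fintype_card, Fintype.card_coe]
    rw [← h0]
    apply Nat.card_congr
    refine ⟨fun x => ⟨x.1 + x0, x.2⟩, fun y => ⟨y.1 + x0, ?_⟩, ?_, ?_⟩
    · show y.1 + x0 + x0 ∈ C
      rw [add_assoc, e2, add_zero]
      exact y.2
    · intro x
      apply Subtype.ext
      show x.1 + x0 + x0 = x.1
      rw [add_assoc, e2, add_zero]
    · intro y
      apply Subtype.ext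
      show y.1 + x0 + x0 = y.1
      rw [add_assoc, e2, add_zero]
  rw [← hcard]
  exact le_maxLinear hV

end transport

section factor

variable {k : ℕ} {ι : Type*} [Fintype ι] [DecidableEq ι]

/-- The factor of the linear form with coefficients `a`, if it is used at `n` coordinates: for a
projection (one coefficient) the largest code of length `n`, otherwise the largest linear code. -/
noncomputable def factor (a : Fin k → ZMod 2) (n d : ℕ) : ℕ :=
  if (univ.filter (fun j => a j ≠ 0)).card = 1 then maxCode n d else maxLinear n d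

omit [Fintype ι] [DecidableEq ι] in
theorem sum_eq_one {f : ι → Op k} (hid : ∀ i b, f i (fun _ => b) = b) {a : Fin k → ZMod 2} {i : ι}
    (hi : i ∈ linSet f a) : ∑ j, a j = 1 := by
  have := hi (fun _ => 1)
  rw [hid] at this
  simpa using this.symm

open Classical in
theorem card_restr_le {f : ι → Op k} (hid : ∀ i b, f i (fun _ => b) = b)
    {C : Finset (ι → ZMod 2)} (hC : Closed f C) {d : ℕ} (hd : MinDist d C) (a : Fin k → ZMod 2) :
    (C.image (restr (linSet f a))).card ≤ factor a (Fintype.card (linSet f a)) d := by
  have hM := minDist_restr hid hC hd a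
  have hCl := closed_restr hC (linSet f a)
  let e := Fintype.equivFin (linSet f a)
  have hM' := minDist_push e hM
  rw [← card_push e]
  unfold factor
  split_ifs with hw
  · exact le_maxCode hM'
  · apply card_le_maxLinear hM'
    intro x hx y hy z hz
    obtain ⟨x', hx', rfl⟩ := mem_image.1 hx
    obtain ⟨y', hy', rfl⟩ := mem_image.1 hy
    obtain ⟨z', hz', rfl⟩ := mem_image.1 hz
    rw [mem_image]
    refine ⟨x' + y' + z', ?_, by funext i; rfl⟩
    by_cases hemp : IsEmpty (linSet f a)
    · have : x' + y' + z' = x' := by
        funext i; exact (hemp.false i).elim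
      rw [this]; exact hx'
    · rw [not_isEmpty_iff] at hemp
      obtain ⟨i0⟩ := hemp
      have hs := sum_eq_one hid i0.2
      -- two different coefficients that are not zero
      have hpos : (univ.filter (fun j => a j ≠ 0)).card ≠ 0 := by
        intro h0
        rw [card_eq_zero, filter_eq_empty_iff] at h0
        have : ∀ j, a j = 0 := fun j => by
          by_contra h
          exact h0 (mem_univ j) h
        simp [this] at hs
      have h2 : 1 < (univ.filter (fun j => a j ≠ 0)).card := by omega
      obtain ⟨j1, hj1, j2, hj2, hne⟩ := one_lt_card.1 h2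
      have ha1 : ∀ t : ZMod 2, t ≠ 0 → t = 1 := by decide
      have hj1' : a j1 = 1 := ha1 _ (mem_filter.1 hj1).2
      have hj2' : a j2 = 1 := ha1 _ (mem_filter.1 hj2).2
      have hmem := hCl (fun j => if j = j1 then x' else if j = j2 then y' else z') (by
        intro j
        split_ifs
        · exact hx'
        · exact hy'
        · exact hz')
      have heq : (fun i : linSet f a => f i (fun j => (if j = j1 then x' else if j = j2 then y' else z') i)) =
          x' + y' + z' := by
        funext i
        rw [i.2]
        have hsplit : ∀ j, a j * (if j = j1 then x' else if j = j2 then y' else z') i =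
            a j * z' i + ((if j = j1 then a j * (x' i + z' i) else 0) +
              (if j = j2 then a j * (y' i + z' i) else 0)) := by
          intro j
          have ez : ∀ t s : ZMod 2, t * s = t * s + (0 + 0) := by decide
          have ex : ∀ t s r : ZMod 2, t * s = t * r + (t * (s + r) + 0) := by decide
          have ey : ∀ t s r : ZMod 2, t * s = t * r + (0 + t * (s + r)) := by decide
          by_cases h1 : j = j1
          · have h2 : j ≠ j2 := fun h => hne (h1.symm.trans h)
            simp only [h1, if_true, if_neg hne]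
            exact ex _ _ _
          · by_cases h2 : j = j2
            · simp only [h2, if_true, if_neg (Ne.symm hne)]
              exact ey _ _ _
            · simp only [if_neg h1, if_neg h2]
              exact ez _ _
        rw [sum_congr rfl fun j _ => hsplit j, sum_add_distrib, sum_add_distrib, ← sum_mul, hs,
          sum_ite_eq' univ j1, sum_ite_eq' univ j2]
        simp only [mem_univ, if_true, hj1', hj2', Pi.add_apply]
        have e4 : ∀ p q r : ZMod 2, 1 * r + (1 * (p + r) + 1 * (q + r)) = p + q + r := by decide
        exact e4 _ _ _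
      rw [heq] at hmem
      exact hmem

open Classical in
/-- The upper bound. -/
theorem closed_card_le {f : ι → Op k} (hid : ∀ i b, f i (fun _ => b) = b) {d : ℕ} (hd1 : 1 ≤ d)
    {C : Finset (ι → ZMod 2)} (hC : Closed f C) (hd : MinDist d C) :
    C.card ≤ 2 ^ (∑ t ∈ classes f, (inClass f t).card / d) *
      ∏ a : Fin k → ZMod 2, factor a (Fintype.card (linSet f a)) d := by
  refine (card_le_prod hid C).trans ?_
  apply Nat.mul_le_mul
  · exact Nat.pow_le_pow_right (by norm_num) (card_fam_le hC hd hd1)
  · exact prod_le_prod' fun a _ => card_restr_le hid hC hd a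

open Classical in
/-- An optimal code for one class of linear coordinates. -/
theorem exists_factor (f : ι → Op k) (a : Fin k → ZMod 2) (d : ℕ) :
    ∃ E : Finset (linSet f a → ZMod 2), Closed (fun i : linSet f a => f i) E ∧ MinDist d E ∧
      E.card = factor a (Fintype.card (linSet f a)) d := by
  let e := Fintype.equivFin (linSet f a)
  unfold factor
  split_ifs with hw
  · obtain ⟨C, hC, hcard⟩ := exists_maxCode (Fintype.card (linSet f a)) d
    refine ⟨C.image (fun x i => x (e i)), ?_, minDist_pull e hC, by rw [card_pull, hcard]⟩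
    rw [card_eq_one] at hw
    obtain ⟨j0, hj0⟩ := hw
    intro x hx
    have heq : (fun i : linSet f a => f i (fun j => x j i)) = x j0 := by
      funext i
      rw [i.2, sum_eq_single j0]
      · have h1 : j0 ∈ univ.filter (fun j => a j ≠ 0) := by rw [hj0]; simp
        have ha1 : ∀ t : ZMod 2, t ≠ 0 → t = 1 := by decide
        rw [ha1 _ (mem_filter.1 h1).2, one_mul]
      · intro j _ hj
        have h1 : a j = 0 := by
          by_contra h
          have : j ∈ univ.filter (fun j => a j ≠ 0) := by simp [h]
          rw [hj0] at this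
          exact hj (mem_singleton.1 this)
        rw [h1, zero_mul]
      · intro h; exact absurd (mem_univ _) h
    rw [heq]
    exact hx j0
  · obtain ⟨V, hV, hcard⟩ := exists_maxLinear (Fintype.card (linSet f a)) d
    obtain ⟨E0, hE0⟩ : ∃ E0 : Finset (Fin (Fintype.card (linSet f a)) → ZMod 2), ∀ x, x ∈ E0 ↔ x ∈ V :=
      ⟨(Set.toFinite (V : Set (Fin (Fintype.card (linSet f a)) → ZMod 2))).toFinset,
        fun x => by rw [Set.Finite.mem_toFinset]; rfl⟩
    have hMD : MinDist d E0 := by
      intro x hx y hy hne
      rw [hammingDist_eq_hammingNorm]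
      refine hV _ (V.add_mem (V.neg_mem ((hE0 x).1 hx)) ((hE0 y).1 hy)) ?_
      intro h0
      exact hne (neg_add_eq_zero.1 h0)
    refine ⟨E0.image (fun x i => x (e i)), ?_, minDist_pull e hMD, ?_⟩
    · intro x hx
      have : ∀ j, ∃ z ∈ V, (fun i => z (e i)) = x j := by
        intro j
        obtain ⟨z, hz, hz'⟩ := mem_image.1 (hx j)
        exact ⟨z, (hE0 z).1 hz, hz'⟩
      choose z hz hz' using this
      rw [mem_image]
      refine ⟨∑ j, a j • z j, (hE0 _).2 (V.sum_mem fun j _ => V.smul_mem _ (hz j)), ?_⟩
      funext i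
      refine Eq.trans ?_ (i.2 (fun j => x j i)).symm
      rw [Finset.sum_apply]
      apply sum_congr rfl
      intro j _
      rw [Pi.smul_apply, smul_eq_mul, ← hz' j]
    · rw [card_pull, ← hcard]
      have h0 : Nat.card {x // x ∈ E0} = E0.card := by
        rw [Nat.card_eq_fintype_card, Fintype.card_coe]
      rw [← h0]
      exact Nat.card_congr (Equiv.subtypeEquivRight hE0)

end factor

end Pool.Agent.R181.CC
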