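import Pool.Agent.R181.CC.Lower

set_option autoImplicit false

/-!
# Binary codes closed under a coordinatewise operation: the main theorems
-/

namespace Pool.Agent.R181.CC

open Finset

section assemble

variable {k : ℕ} {ι : Type*} [Fintype ι] [DecidableEq ι]

open Classical in
/-- A representative of a class. -/
noncomputable def rep (t : Finset (Op k)) : Op k :=
  if h : ∃ g, cls g = t then h.choose else fun _ => 0

theorem cls_rep (g : Op k) : cls (rep (cls g)) = cls g := by
  unfold rep
  have h : ∃ g', cls g' = cls g := ⟨g, rfl⟩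
  rw [dif_pos h]
  exact h.choose_spec

open Classical in
/-- The orientation of an operation with respect to the representative of its class. -/
noncomputable def ori (g : Op k) : ZMod 2 := if g = rep (cls g) then 0 else 1

theorem ori_spec (g : Op k) (v : Fin k → ZMod 2) :
    g (fun j => v j + ori g) = rep (cls g) v + ori g := by
  have h := of_cls_eq (cls_rep g).symm
  unfold ori
  split_ifs with h0
  · rw [← h0]
    simp
  · have h1 : g = dual (rep (cls g)) := by
      rcases h with h | h
      · exact absurd h h0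
      · exact h
    conv_lhs => rw [h1]
    unfold dual
    have e : ∀ t : ZMod 2, t + 1 + 1 = t := by decide
    simp only [e]

/-- The index set of the blocks. -/
abbrev Blocks (f : ι → Op k) (d : ℕ) : Type :=
  Σ t : {t // t ∈ classes f}, Fin ((inClass f t.1).card / d)

theorem exists_blocks (f : ι → Op k) (d : ℕ) :
    ∃ Φ : Blocks f d × Fin d → ι, Function.Injective Φ ∧ ∀ b r, Φ (b, r) ∈ inClass f b.1.1 := by
  classical
  have : ∀ t : Finset (Op k), Nonempty (Fin ((inClass f t).card / d) × Fin d ↪ {i // i ∈ inClass f t}) := by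
    intro t
    apply Function.Embedding.nonempty_of_card_le
    rw [Fintype.card_prod, Fintype.card_fin, Fintype.card_fin, Fintype.card_coe]
    exact Nat.div_mul_le_self _ _
  have φ : ∀ t : Finset (Op k), Fin ((inClass f t).card / d) × Fin d ↪ {i // i ∈ inClass f t} :=
    fun t => (this t).some
  refine ⟨fun p => (φ p.1.1.1 (p.1.2, p.2)).1, ?_, fun b r => (φ b.1.1 (b.2, r)).2⟩
  rintro ⟨⟨⟨t, ht⟩, q⟩, r⟩ ⟨⟨⟨t', ht'⟩, q'⟩, r'⟩ h
  simp only at h
  have h1 := (φ t (q, r)).2
  have h2 := (φ t' (q', r')).2
  rw [h] at h1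
  unfold inClass at h1 h2
  rw [mem_filter] at h1 h2
  have htt : t = t' := h1.2.2.symm.trans h2.2.2
  subst htt
  have h3 := (φ t).injective (Subtype.ext h)
  simp only [Prod.mk.injEq] at h3
  obtain ⟨rfl, rfl⟩ := h3
  rfl

omit [Fintype ι] [DecidableEq ι] in
theorem linSet_unique {f : ι → Op k} {a a' : Fin k → ZMod 2} {i : ι} (h : i ∈ linSet f a)
    (h' : i ∈ linSet f a') : a = a' := by
  funext j
  have h1 := h (Pi.single j 1)
  have h2 := h' (Pi.single j 1)
  rw [h1] at h2
  simpa [Pi.single_apply] using h2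

omit [Fintype ι] [DecidableEq ι] in
theorem affine_of_linSet {f : ι → Op k} {a : Fin k → ZMod 2} {i : ι} (h : i ∈ linSet f a) :
    Affine (f i) := ⟨a, 0, fun v => by rw [h v, zero_add]⟩

omit [Fintype ι] [DecidableEq ι] in
theorem exists_linSet {f : ι → Op k} (hid : ∀ i b, f i (fun _ => b) = b) {i : ι}
    (h : Affine (f i)) : ∃ a, i ∈ linSet f a := by
  obtain ⟨a, b, hb⟩ := h
  have hb0 : b = 0 := by
    have := hb (fun _ => 0)
    rw [hid] at this
    simpa using this.symm
  exact ⟨a, fun v => by rw [hb, hb0, zero_add]⟩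

open Classical in
theorem exists_closed (f : ι → Op k) (hid : ∀ i b, f i (fun _ => b) = b) (d : ℕ) (hd1 : 1 ≤ d) :
    ∃ C : Finset (ι → ZMod 2), Closed f C ∧ MinDist d C ∧
      2 ^ (∑ t ∈ classes f, (inClass f t).card / d) *
      ∏ a : Fin k → ZMod 2, factor a (Fintype.card (linSet f a)) d ≤ C.card := by
  obtain ⟨Φ, hΦ, hΦc⟩ := exists_blocks f d
  have hE := fun a => exists_factor f a d
  choose E hEc hEd hEn using hE
  have hnotaff : ∀ p, ¬ Affine (f (Φ p)) := by
    rintro ⟨b, r⟩
    have := hΦc b r
    unfold inClass at this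
    exact (mem_filter.1 this).2.1
  have hcls : ∀ b r, cls (f (Φ (b, r))) = b.1.1 := by
    intro b r
    have := hΦc b r
    unfold inClass at this
    exact (mem_filter.1 this).2.2
  let P : (ι → ZMod 2) → Prop := fun x =>
    (∃ w : Blocks f d → ZMod 2, ∀ b r, x (Φ (b, r)) = w b + ori (f (Φ (b, r)))) ∧
    (∀ a, restr (linSet f a) x ∈ E a) ∧
    (∀ i, ¬ Affine (f i) → (∀ p, Φ p ≠ i) → x i = 0)
  refine ⟨univ.filter P, ?_, ?_, ?_⟩
  · intro X hX
    have hX' : ∀ j, P (X j) := fun j => (mem_filter.1 (hX j)).2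
    rw [mem_filter]
    refine ⟨mem_univ _, ?_, ?_, ?_⟩
    · have hw : ∀ j, ∃ w : Blocks f d → ZMod 2, ∀ b r, X j (Φ (b, r)) = w b + ori (f (Φ (b, r))) :=
        fun j => (hX' j).1
      choose w hw using hw
      refine ⟨fun b => rep b.1.1 (fun j => w j b), ?_⟩
      intro b r
      have e1 : (fun j => X j (Φ (b, r))) = (fun j => w j b + ori (f (Φ (b, r)))) := by
        funext j; exact hw j b r
      show f (Φ (b, r)) (fun j => X j (Φ (b, r))) = rep b.1.1 (fun j => w j b) + ori (f (Φ (b, r)))
      rw [e1, ori_spec (f (Φ (b, r))) (fun j => w j b), hcls]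
    · intro a
      exact hEc a (fun j => restr (linSet f a) (X j)) (fun j => (hX' j).2.1 a)
    · intro i hi hi2
      have e1 : (fun j => X j i) = (fun _ => 0) := by
        funext j; exact (hX' j).2.2 i hi hi2
      show f i (fun j => X j i) = 0
      rw [e1, hid]
  · intro x hx y hy hne
    have hx' : P x := (mem_filter.1 hx).2
    have hy' : P y := (mem_filter.1 hy).2
    obtain ⟨i, hi⟩ := Function.ne_iff.1 hne
    by_cases hA : Affine (f i)
    · obtain ⟨a, ha⟩ := exists_linSet hid hA
      have h1 : restr (linSet f a) x ≠ restr (linSet f a) y := by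
        intro h
        exact hi (congrFun h ⟨i, ha⟩)
      refine (hEd a _ (hx'.2.1 a) _ (hy'.2.1 a) h1).trans ?_
      unfold hammingDist
      apply card_le_card_of_injOn (fun i : linSet f a => (i : ι))
      · intro i hi
        have h2 := (mem_filter.1 (mem_coe.1 hi)).2
        exact mem_coe.2 (mem_filter.2 ⟨mem_univ _, h2⟩)
      · intro i _ j _ h
        exact Subtype.ext h
    · by_cases hR : ∃ p, Φ p = i
      · obtain ⟨⟨b, r⟩, rfl⟩ := hR
        obtain ⟨w, hw⟩ := hx'.1
        obtain ⟨w', hw'⟩ := hy'.1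
        have hwb : w b ≠ w' b := by
          intro h
          apply hi
          rw [hw, hw', h]
        have : d = (univ : Finset (Fin d)).card := by simp
        unfold hammingDist
        conv_lhs => rw [this]
        apply card_le_card_of_injOn (fun r => Φ (b, r))
        · intro r _
          rw [mem_coe, mem_filter]
          refine ⟨mem_univ _, ?_⟩
          rw [hw, hw']
          intro h
          exact hwb (add_right_cancel h)
        · intro r _ r' _ h
          have := hΦ h
          simpa using this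
      · push Not at hR
        exact absurd ((hx'.2.2 i hA hR).trans (hy'.2.2 i hA hR).symm) hi
  · -- the number of words
    have hcard : ((univ : Finset (Blocks f d → ZMod 2)) ×ˢ Fintype.piFinset E).card =
        2 ^ (∑ t ∈ classes f, (inClass f t).card / d) *
        ∏ a : Fin k → ZMod 2, factor a (Fintype.card (linSet f a)) d := by
      rw [card_product, Fintype.card_piFinset, card_univ, Fintype.card_fun, ZMod.card,
        Fintype.card_sigma]
      congr 1
      · congr 1
        simp only [Fintype.card_fin]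
        exact sum_coe_sort (classes f) (fun t => (inClass f t).card / d)
      · exact prod_congr rfl fun a _ => hEn a
    rw [← hcard]
    let Ψ : (Blocks f d → ZMod 2) × (∀ a, linSet f a → ZMod 2) → ι → ZMod 2 := fun q i =>
      if h : ∃ p, Φ p = i then q.1 h.choose.1 + ori (f i)
      else if h2 : ∃ a, i ∈ linSet f a then q.2 h2.choose ⟨i, h2.choose_spec⟩ else 0
    have hΨ1 : ∀ q b r, Ψ q (Φ (b, r)) = q.1 b + ori (f (Φ (b, r))) := by
      intro q b r
      have h : ∃ p, Φ p = Φ (b, r) := ⟨_, rfl⟩
      have h1 := hΦ h.choose_spec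
      show (if h : ∃ p, Φ p = Φ (b, r) then q.1 h.choose.1 + ori (f (Φ (b, r))) else _) = _
      rw [dif_pos h, h1]
    have hΨ2 : ∀ q a i (hi : i ∈ linSet f a), Ψ q i = q.2 a ⟨i, hi⟩ := by
      intro q a i hi
      have h : ¬ ∃ p, Φ p = i := by
        rintro ⟨p, rfl⟩
        exact hnotaff p (affine_of_linSet hi)
      have h2 : ∃ a, i ∈ linSet f a := ⟨a, hi⟩
      have h3 : h2.choose = a := linSet_unique h2.choose_spec hi
      show (if h : ∃ p, Φ p = i then q.1 h.choose.1 + ori (f i)
      else if h2 : ∃ a, i ∈ linSet f a then q.2 h2.choose ⟨i, h2.choose_spec⟩ else 0) = _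
      rw [dif_neg h, dif_pos h2]
      have h4 : ∀ (a' : Fin k → ZMod 2) (h' : i ∈ linSet f a'), a' = a → q.2 a' ⟨i, h'⟩ = q.2 a ⟨i, hi⟩ := by
        intro a' h' e
        subst e
        rfl
      exact h4 _ _ h3
    have hΨ3 : ∀ q i, ¬ Affine (f i) → (∀ p, Φ p ≠ i) → Ψ q i = 0 := by
      intro q i hi hi2
      have h : ¬ ∃ p, Φ p = i := by
        rintro ⟨p, hp⟩
        exact hi2 p hp
      have h2 : ¬ ∃ a, i ∈ linSet f a := by
        rintro ⟨a, ha⟩
        exact hi (affine_of_linSet ha)
      show (if h : ∃ p, Φ p = i then q.1 h.choose.1 + ori (f i)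
      else if h2 : ∃ a, i ∈ linSet f a then q.2 h2.choose ⟨i, h2.choose_spec⟩ else 0) = _
      rw [dif_neg h, dif_neg h2]
    have hres : ∀ q a, restr (linSet f a) (Ψ q) = q.2 a := by
      intro q a
      funext i
      exact hΨ2 q a i.1 i.2
    apply card_le_card_of_injOn Ψ
    · intro q hq
      rw [mem_coe, mem_product, Fintype.mem_piFinset] at hq
      rw [mem_coe, mem_filter]
      refine ⟨mem_univ _, ⟨q.1, hΨ1 q⟩, ?_, hΨ3 q⟩
      intro a
      rw [hres]
      exact hq.2 a
    · intro q _ q' _ h
      apply Prod.ext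
      · funext b
        have h1 := congrFun h (Φ (b, ⟨0, hd1⟩))
        rw [hΨ1, hΨ1] at h1
        exact add_right_cancel h1
      · funext a
        rw [← hres q a, h, hres]

open Classical in
/-- **The maximum size of a code closed under an idempotent coordinatewise operation.** -/
theorem maxClosed_eq (f : ι → Op k) (hid : ∀ i b, f i (fun _ => b) = b) (d : ℕ) (hd1 : 1 ≤ d) :
    maxClosed f d = 2 ^ (∑ t ∈ classes f, (inClass f t).card / d) *
      ∏ a : Fin k → ZMod 2, factor a (Fintype.card (linSet f a)) d := by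
  apply le_antisymm
  · exact maxClosed_le fun C hC hd => closed_card_le hid hd1 hC hd
  · obtain ⟨C, h1, h2, h3⟩ := exists_closed f hid d hd1
    exact h3.trans (le_maxClosed h1 h2)

end assemble

section uniform

variable {k : ℕ}

theorem uniform_le (g : Op k) (hg : ¬ Affine g) (n d : ℕ) (hd1 : 1 ≤ d)
    {C : Finset (Fin n → ZMod 2)} (hC : Closed (fun _ => g) C) (hd : MinDist d C) :
    C.card ≤ 2 ^ (n / d) := by
  classical
  have h1 : (fam (fun _ : Fin n => g) C).card ≤ n / d := by
    refine (card_fam_le hC hd hd1).trans ?_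
    have h2 : classes (fun _ : Fin n => g) ⊆ {cls g} := by
      intro t ht
      unfold classes at ht
      obtain ⟨i, -, rfl⟩ := mem_image.1 ht
      simp
    refine (sum_le_sum_of_subset h2).trans ?_
    rw [sum_singleton]
    apply Nat.div_le_div_right
    exact (card_le_univ _).trans (by simp)
  have hch : ∀ D : fam (fun _ : Fin n => g) C, ∃ i, i ∈ D.1 := fun D => fam_nonempty D.2
  choose r hr using hch
  have h3 : C.card ≤ (univ : Finset (fam (fun _ : Fin n => g) C → ZMod 2)).card := by
    apply card_le_card_of_injOn (fun z D => z (r D))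
    · intro z _; exact mem_coe.2 (mem_univ _)
    · intro z hz w hw hzw
      apply eq_of_fam hz hw
      · intro D hD
        exact ⟨r ⟨D, hD⟩, hr ⟨D, hD⟩, congrFun hzw ⟨D, hD⟩⟩
      · intro i hi
        exact absurd hi hg
  rw [card_univ, Fintype.card_fun, ZMod.card, Fintype.card_coe] at h3
  exact h3.trans (Nat.pow_le_pow_right (by norm_num) h1)

theorem uniform_ge (g : Op k) (n d : ℕ) (hd1 : 1 ≤ d) (hdn : d ≤ n) :
    ∃ C : Finset (Fin n → ZMod 2), Closed (fun _ => g) C ∧ MinDist d C ∧ C.card = 2 ^ (n / d) := by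
  classical
  have hm : 0 < n / d := Nat.div_pos hdn (by omega)
  let β : Fin n → Fin (n / d) := fun i => ⟨min (i / d) (n / d - 1), by omega⟩
  have hβ : ∀ (b : Fin (n / d)) (r : Fin d), ∃ h : b.1 * d + r.1 < n, β ⟨b.1 * d + r.1, h⟩ = b := by
    intro b r
    have h0 : b.1 * d + r.1 < n := by
      have h1 : (b.1 + 1) * d ≤ n / d * d := Nat.mul_le_mul_right _ b.2
      have h2 := Nat.div_mul_le_self n d
      have h3 := r.2
      have h4 : (b.1 + 1) * d = b.1 * d + d := by ring
      omega
    refine ⟨h0, ?_⟩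
    apply Fin.ext
    show min ((b.1 * d + r.1) / d) (n / d - 1) = b.1
    have h1 : (b.1 * d + r.1) / d = b.1 := by
      rw [mul_comm, Nat.mul_add_div (by omega), Nat.div_eq_of_lt r.2, add_zero]
    rw [h1]
    have := b.2
    omega
  refine ⟨univ.image (fun (w : Fin (n / d) → ZMod 2) (i : Fin n) => w (β i)), ?_, ?_, ?_⟩
  · intro X hX
    have : ∀ j, ∃ w : Fin (n / d) → ZMod 2, (fun i => w (β i)) = X j := by
      intro j
      obtain ⟨w, -, hw⟩ := mem_image.1 (hX j)
      exact ⟨w, hw⟩
    choose w hw using this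
    rw [mem_image]
    refine ⟨fun b => g (fun j => w j b), mem_univ _, ?_⟩
    funext i
    have : (fun j => w j (β i)) = (fun j => X j i) := by
      funext j
      exact congrFun (hw j) i
    exact congrArg g this
  · intro x hx y hy hne
    obtain ⟨w, -, rfl⟩ := mem_image.1 hx
    obtain ⟨w', -, rfl⟩ := mem_image.1 hy
    obtain ⟨i, hi⟩ := Function.ne_iff.1 hne
    have hd' : d = (univ : Finset (Fin d)).card := by simp
    unfold hammingDist
    conv_lhs => rw [hd']
    apply card_le_card_of_injOn (fun r => ⟨(β i).1 * d + r.1, (hβ (β i) r).choose⟩)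
    · intro r _
      rw [mem_coe, mem_filter]
      refine ⟨mem_univ _, ?_⟩
      show w (β ⟨(β i).1 * d + r.1, (hβ (β i) r).choose⟩) ≠ w' (β ⟨(β i).1 * d + r.1, (hβ (β i) r).choose⟩)
      rw [(hβ (β i) r).choose_spec]
      exact hi
    · intro r _ r' _ h
      have := congrArg Fin.val h
      simp only [add_right_inj] at this
      exact Fin.ext this
  · rw [card_image_of_injective, card_univ, Fintype.card_fun, ZMod.card, Fintype.card_fin]
    intro w w' h
    funext b
    obtain ⟨h0, h1⟩ := hβ b ⟨0, hd1⟩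
    have := congrFun h ⟨_, h0⟩
    simp only [h1] at this
    exact this

/-- **The maximum size of a code closed under a non-affine operation.** -/
theorem uniform_eq (g : Op k) (hg : ¬ Affine g) (n d : ℕ) (hd1 : 1 ≤ d) (hdn : d ≤ n) :
    maxClosed (fun _ : Fin n => g) d = 2 ^ (n / d) := by
  apply le_antisymm
  · exact maxClosed_le fun C hC hd => uniform_le g hg n d hd1 hC hd
  · obtain ⟨C, h1, h2, h3⟩ := uniform_ge g n d hd1 hdn
    rw [← h3]
    exact le_maxClosed h1 h2

end uniform

end Pool.Agent.R181.CC
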