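import Pool.Agent.R181.CC.Core

set_option autoImplicit false

/-!
# Binary codes closed under a coordinatewise operation: upper bounds
-/

namespace Pool.Agent.R181.CC

open Finset

variable {k : ℕ} {ι : Type*} [Fintype ι] [DecidableEq ι]

theorem dual_dual (g : Op k) : dual (dual g) = g := by
  funext v
  unfold dual
  have e : ∀ t : ZMod 2, t + 1 + 1 = t := by decide
  simp only [e]

theorem affine_of_dual {g : Op k} (h : Affine (dual g)) : Affine g := by
  obtain ⟨a, b, hb⟩ := h
  refine ⟨a, b + (∑ j, a j) + 1, fun v => ?_⟩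
  have h1 := hb (fun j => v j + 1)
  have h2 : dual g (fun j => v j + 1) = g v + 1 := by
    unfold dual
    have e : ∀ t : ZMod 2, t + 1 + 1 = t := by decide
    simp only [e]
  rw [h2] at h1
  have h3 : ∑ j, a j * (v j + 1) = ∑ j, a j * v j + ∑ j, a j := by
    rw [← sum_add_distrib]
    exact sum_congr rfl fun j _ => by ring
  rw [h3] at h1
  have e3 : ∀ p q r s : ZMod 2, p + 1 = q + (r + s) → p = q + s + 1 + r := by decide
  exact e3 _ _ _ _ h1

theorem affine_dual_iff {g : Op k} : Affine (dual g) ↔ Affine g := by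
  constructor
  · exact affine_of_dual
  · intro h
    apply affine_of_dual
    rwa [dual_dual]

/-- The class of a non-affine operation: the operation and its dual. -/
def cls (g : Op k) : Finset (Op k) := {g, dual g}

theorem cls_eq {g g' : Op k} (h : g' = g ∨ g' = dual g) : cls g' = cls g := by
  rcases h with h | h
  · rw [h]
  · unfold cls
    rw [h, dual_dual, Finset.pair_comm]

theorem of_cls_eq {g g' : Op k} (h : cls g' = cls g) : g' = g ∨ g' = dual g := by
  have h1 : g' ∈ cls g' := by simp [cls]
  rw [h] at h1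
  simpa [cls] using h1

open Classical in
/-- The inclusion-minimal difference sets that meet the non-affine coordinates. -/
noncomputable def fam (f : ι → Op k) (C : Finset (ι → ZMod 2)) : Finset (Finset ι) :=
  univ.filter (fun D => ∃ x y, IsMin C x y ∧ dset x y = D ∧ ∃ i ∈ D, ¬ Affine (f i))

theorem mem_fam {f : ι → Op k} {C : Finset (ι → ZMod 2)} {D : Finset ι} :
    D ∈ fam f C ↔ ∃ x y, IsMin C x y ∧ dset x y = D ∧ ∃ i ∈ D, ¬ Affine (f i) := by
  simp [fam]

theorem fam_class {f : ι → Op k} {C : Finset (ι → ZMod 2)} (hC : Closed f C) {D : Finset ι}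
    (hD : D ∈ fam f C) {i i' : ι} (hi : i ∈ D) (hi' : i' ∈ D) :
    ¬ Affine (f i) ∧ cls (f i') = cls (f i) := by
  obtain ⟨x, y, h, rfl, i0, hi0, hf⟩ := mem_fam.1 hD
  rw [mem_dset] at hi hi' hi0
  have h1 := h.cls hC hi0 hi hf
  have h2 : ¬ Affine (f i) := by
    rcases h1 with h1 | h1
    · rw [h1]; exact hf
    · rw [h1, affine_dual_iff]; exact hf
  exact ⟨h2, cls_eq (h.cls hC hi hi' h2)⟩

theorem fam_pattern {f : ι → Op k} {C : Finset (ι → ZMod 2)} (hC : Closed f C) {D : Finset ι}
    (hD : D ∈ fam f C) {i i' : ι} (hi : i ∈ D) (hi' : i' ∈ D) {z w : ι → ZMod 2} (hz : z ∈ C)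
    (hw : w ∈ C) (hzw : z i = w i) : z i' = w i' := by
  have hf := (fam_class hC hD hi hi').1
  obtain ⟨x, y, h, rfl, -⟩ := mem_fam.1 hD
  rw [mem_dset] at hi hi'
  have h1 := h.pattern hC hi hi' hf z hz
  have h2 := h.pattern hC hi hi' hf w hw
  rw [hzw, h2] at h1
  exact (add_right_cancel h1).symm

theorem fam_disjoint {f : ι → Op k} {C : Finset (ι → ZMod 2)} (hC : Closed f C) {D D' : Finset ι}
    (hD : D ∈ fam f C) (hD' : D' ∈ fam f C) {i : ι} (hi : i ∈ D) (hi' : i ∈ D') : D = D' := by
  obtain ⟨x, y, h, hxy, -⟩ := mem_fam.1 hD'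
  have hsub : D ⊆ dset x y := by
    intro a ha
    rw [mem_dset]
    intro e
    have := fam_pattern hC hD ha hi h.1 h.2.1 e
    rw [← hxy, mem_dset] at hi'
    exact hi' this
  obtain ⟨x', y', h', hxy', -⟩ := mem_fam.1 hD
  rw [← hxy', ← hxy]
  rw [← hxy'] at hsub
  exact h.2.2.2 _ h'.1 _ h'.2.1 h'.2.2.1 hsub

theorem fam_card {f : ι → Op k} {C : Finset (ι → ZMod 2)} {d : ℕ} (hd : MinDist d C)
    {D : Finset ι} (hD : D ∈ fam f C) : d ≤ D.card := by
  obtain ⟨x, y, h, rfl, -⟩ := mem_fam.1 hD
  rw [card_dset]
  exact hd x h.1 y h.2.1 h.2.2.1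

theorem fam_nonempty {f : ι → Op k} {C : Finset (ι → ZMod 2)} {D : Finset ι} (hD : D ∈ fam f C) :
    D.Nonempty := by
  obtain ⟨x, y, h, rfl, i, hi, -⟩ := mem_fam.1 hD
  exact ⟨i, hi⟩

open Classical in
/-- The classes of the non-affine coordinates. -/
noncomputable def classes (f : ι → Op k) : Finset (Finset (Op k)) :=
  (univ.filter (fun i => ¬ Affine (f i))).image (fun i => cls (f i))

open Classical in
/-- The non-affine coordinates of the class `t`. -/
noncomputable def inClass (f : ι → Op k) (t : Finset (Op k)) : Finset ι :=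
  univ.filter (fun i => ¬ Affine (f i) ∧ cls (f i) = t)

theorem card_fam_le {f : ι → Op k} {C : Finset (ι → ZMod 2)} (hC : Closed f C) {d : ℕ}
    (hd : MinDist d C) (hd1 : 1 ≤ d) :
    (fam f C).card ≤ ∑ t ∈ classes f, (inClass f t).card / d := by
  classical
  have hcov : fam f C ⊆ (classes f).biUnion (fun t => (fam f C).filter (fun D => D ⊆ inClass f t)) := by
    intro D hD
    obtain ⟨i, hi⟩ := fam_nonempty hD
    rw [mem_biUnion]
    refine ⟨cls (f i), ?_, ?_⟩
    · unfold classes
      rw [mem_image]
      exact ⟨i, by simp [(fam_class hC hD hi hi).1], rfl⟩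
    · rw [mem_filter]
      refine ⟨hD, fun a ha => ?_⟩
      unfold inClass
      rw [mem_filter]
      exact ⟨mem_univ _, (fam_class hC hD ha hi).1, (fam_class hC hD hi ha).2⟩
  refine (card_le_card hcov).trans (card_biUnion_le.trans ?_)
  apply sum_le_sum
  intro t _
  rw [Nat.le_div_iff_mul_le (by omega)]
  have hdis : (((fam f C).filter (fun D => D ⊆ inClass f t) : Finset (Finset ι)) : Set (Finset ι)).PairwiseDisjoint id := by
    intro D hD D' hD' hne
    rw [Function.onFun, Finset.disjoint_left]
    intro a ha ha'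
    exact hne (fam_disjoint hC (mem_filter.1 (mem_coe.1 hD)).1 (mem_filter.1 (mem_coe.1 hD')).1 ha ha')
  calc ((fam f C).filter (fun D => D ⊆ inClass f t)).card * d
      = ∑ D ∈ (fam f C).filter (fun D => D ⊆ inClass f t), d := by rw [sum_const, smul_eq_mul]
    _ ≤ ∑ D ∈ (fam f C).filter (fun D => D ⊆ inClass f t), D.card :=
        sum_le_sum fun D hD => fam_card hd (mem_filter.1 hD).1
    _ = (((fam f C).filter (fun D => D ⊆ inClass f t)).biUnion id).card := by
        rw [card_biUnion hdis]; rfl
    _ ≤ (inClass f t).card := by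
        apply card_le_card
        intro a ha
        rw [mem_biUnion] at ha
        obtain ⟨D, hD, ha⟩ := ha
        exact (mem_filter.1 hD).2 ha

/-- The codeword is determined by one letter in each set of the family and the affine letters. -/
theorem eq_of_fam {f : ι → Op k} {C : Finset (ι → ZMod 2)}
    {z w : ι → ZMod 2} (hz : z ∈ C) (hw : w ∈ C)
    (h1 : ∀ D ∈ fam f C, ∃ i ∈ D, z i = w i) (h2 : ∀ i, Affine (f i) → z i = w i) : z = w := by
  by_contra hne
  obtain ⟨x, y, h, hsub⟩ := exists_isMin C z w hz hw hne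
  by_cases hN : ∃ i ∈ dset x y, ¬ Affine (f i)
  · have hD : dset x y ∈ fam f C := mem_fam.2 ⟨x, y, h, rfl, hN⟩
    obtain ⟨i, hi, hi2⟩ := h1 _ hD
    have := hsub hi
    rw [mem_dset] at this
    exact this hi2
  · push Not at hN
    have : ∃ i, x i ≠ y i := by
      by_contra hh
      push Not at hh
      exact h.2.2.1 (funext hh)
    obtain ⟨i, hi⟩ := this
    have hi' := mem_dset.2 hi
    have h3 := hsub hi'
    rw [mem_dset] at h3
    exact h3 (h2 i (hN i hi'))

/-- Restriction of the words to the coordinates in `S`. -/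
def restr (S : Set ι) (z : ι → ZMod 2) : S → ZMod 2 := fun i => z i

/-- The coordinates `i` at which `f i` is the linear form with coefficients `a`. -/
def linSet (f : ι → Op k) (a : Fin k → ZMod 2) : Set ι := {i | ∀ v, f i v = ∑ j, a j * v j}

open Classical in
/-- The upper bound by restrictions to the classes. -/
theorem card_le_prod {f : ι → Op k} (hid : ∀ i b, f i (fun _ => b) = b)
    (C : Finset (ι → ZMod 2)) :
    C.card ≤ 2 ^ (fam f C).card * ∏ a : Fin k → ZMod 2, (C.image (restr (linSet f a))).card := by
  have hch : ∀ D : fam f C, ∃ i, i ∈ D.1 := fun D => fam_nonempty D.2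
  choose r hr using hch
  have hcard : ((univ : Finset (fam f C → ZMod 2)) ×ˢ
      Fintype.piFinset (fun a => C.image (restr (linSet f a)))).card =
      2 ^ (fam f C).card * ∏ a : Fin k → ZMod 2, (C.image (restr (linSet f a))).card := by
    rw [card_product, Fintype.card_piFinset, card_univ]
    simp
  rw [← hcard]
  apply card_le_card_of_injOn (fun z => (fun D => z (r D), fun a => restr (linSet f a) z))
  · intro z hz
    rw [mem_coe, mem_product, Fintype.mem_piFinset]
    exact ⟨mem_univ _, fun a => mem_image_of_mem _ hz⟩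
  · intro z hz w hw hzw
    simp only [Prod.mk.injEq] at hzw
    apply eq_of_fam hz hw
    · intro D hD
      exact ⟨r ⟨D, hD⟩, hr ⟨D, hD⟩, congrFun hzw.1 ⟨D, hD⟩⟩
    · intro i hi
      obtain ⟨a, b, hb⟩ := hi
      have hb0 : b = 0 := by
        have := hb (fun _ => 0)
        rw [hid] at this
        simpa using this.symm
      have hmem : i ∈ linSet f a := by
        intro v
        rw [hb, hb0, zero_add]
      have := congrFun (congrFun hzw.2 a) ⟨i, hmem⟩
      exact this

omit [Fintype ι] [DecidableEq ι] in
theorem closed_restr {f : ι → Op k} {C : Finset (ι → ZMod 2)} (hC : Closed f C) (S : Set ι)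
    [DecidableEq (S → ZMod 2)] :
    Closed (fun i : S => f i) (C.image (restr S)) := by
  intro x hx
  have : ∀ j, ∃ z ∈ C, restr S z = x j := fun j => by simpa using hx j
  choose z hz hz' using this
  rw [mem_image]
  refine ⟨_, hC z hz, ?_⟩
  funext i
  have : (fun j => z j i) = (fun j => x j i) := by
    funext j
    exact congrFun (hz' j) i
  exact congrArg (f i) this

/-- The restriction to the coordinates with a given non-zero linear form has the same minimum
distance. -/
theorem minDist_restr {f : ι → Op k} (hid : ∀ i b, f i (fun _ => b) = b)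
    {C : Finset (ι → ZMod 2)} (hC : Closed f C) {d : ℕ} (hd : MinDist d C) (a : Fin k → ZMod 2)
    [Fintype (linSet f a)] [DecidableEq (linSet f a → ZMod 2)] :
    MinDist d (C.image (restr (linSet f a))) := by
  classical
  intro u hu u' hu' hne
  obtain ⟨x, hx, rfl⟩ := mem_image.1 hu
  obtain ⟨y, hy, rfl⟩ := mem_image.1 hu'
  have : ∃ s : linSet f a, x s ≠ y s := by
    by_contra hh
    push Not at hh
    exact hne (funext hh)
  obtain ⟨⟨s, hs⟩, hsxy⟩ := this
  simp only at hsxy
  -- the smallest difference set that contains `s`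
  have hne2 : ((C ×ˢ C).filter (fun p => s ∈ dset p.1 p.2 ∧ dset p.1 p.2 ⊆ dset x y)).Nonempty :=
    ⟨(x, y), by simp only [mem_filter, mem_product]; exact ⟨⟨hx, hy⟩, mem_dset.2 hsxy, subset_rfl⟩⟩
  obtain ⟨⟨x', y'⟩, hp, hmin⟩ := exists_min_image _ (fun p => (dset p.1 p.2).card) hne2
  simp only [mem_filter, mem_product] at hp
  obtain ⟨⟨hx', hy'⟩, hs', hsub⟩ := hp
  have hs'' := mem_dset.1 hs'
  have hin : ∀ i ∈ dset x' y', i ∈ linSet f a := by
    intro i hi
    have hi' := mem_dset.1 hi
    by_contra hia
    -- all pairs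
    have hall : ∀ c c' : Fin k → ZMod 2, f i (fun j => x' i + c j) = f i (fun j => x' i + c' j) →
        f s (fun j => x' s + c j) = f s (fun j => x' s + c' j) := by
      intro c c' hcc
      by_contra hss
      have hm : ∀ (c : Fin k → ZMod 2) (j : Fin k), mix x' y' c j ∈ C := by
        intro c j
        unfold mix
        split_ifs
        · exact hx'
        · exact hy'
      have hW := hC _ (hm c)
      have hW' := hC _ (hm c')
      have e1 : s ∈ dset (fun i => f i (fun j => mix x' y' c j i)) (fun i => f i (fun j => mix x' y' c' j i)) := by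
        rw [mem_dset]
        simp only [mix_apply hs'']
        exact hss
      have e2 : dset (fun i => f i (fun j => mix x' y' c j i)) (fun i => f i (fun j => mix x' y' c' j i)) ⊆
          (dset x' y').erase i := by
        intro b hb
        rw [mem_dset] at hb
        rw [mem_erase, mem_dset]
        constructor
        · rintro rfl
          apply hb
          simp only [mix_apply hi']
          exact hcc
        · intro hxy
          apply hb
          simp only [mix_apply' hxy]
      have e3 := hmin (_, _) (by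
        simp only [mem_filter, mem_product]
        exact ⟨⟨hW, hW'⟩, e1, (e2.trans (erase_subset _ _)).trans hsub⟩)
      have e4 := card_le_card e2
      have e5 := card_erase_lt_of_mem hi
      simp only at e3
      omega
    -- so `f i` is affine with the coefficients `a`
    apply hia
    have hsa : ∀ c : Fin k → ZMod 2, f s (fun j => x' s + c j) = ∑ j, a j * x' s + ∑ j, a j * c j := by
      intro c
      rw [hs, ← sum_add_distrib]
      exact sum_congr rfl fun j _ => by ring
    have hfac : ∀ c c' : Fin k → ZMod 2, f i (fun j => x' i + c j) = f i (fun j => x' i + c' j) →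
        ∑ j, a j * c j = ∑ j, a j * c' j := by
      intro c c' h
      have := hall c c' h
      rw [hsa, hsa] at this
      exact add_left_cancel this
    -- evaluate at 0 and 1
    have h0 : f i (fun j => x' i + (0 : ZMod 2)) = x' i := by rw [hid, add_zero]
    have h1 : f i (fun j => x' i + (1 : ZMod 2)) = x' i + 1 := by rw [hid]
    have hcase : ∀ c : Fin k → ZMod 2,
        (f i (fun j => x' i + c j) = x' i ∧ ∑ j, a j * c j = 0) ∨
        (f i (fun j => x' i + c j) = x' i + 1 ∧ ∑ j, a j * c j = ∑ j, a j) := by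
      intro c
      by_cases hc : f i (fun j => x' i + c j) = x' i
      · left
        refine ⟨hc, ?_⟩
        have := hfac c (fun _ => 0) (hc.trans h0.symm)
        simpa using this
      · right
        have hc' := z2_ne (Ne.symm hc)
        refine ⟨hc', ?_⟩
        have := hfac c (fun _ => 1) (hc'.trans h1.symm)
        simpa using this
    have hsum : ∑ j, a j = 1 := by
      have := hs (fun _ => 1)
      rw [hid] at this
      simpa using this.symm
    intro v
    have e : ∀ t u : ZMod 2, t + (t + u) = u := by decide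
    rcases hcase (fun j => x' i + v j) with ⟨h2, h3⟩ | ⟨h2, h3⟩
    all_goals
      simp only [e] at h2
      have h4 : ∑ j, a j * (x' i + v j) = (∑ j, a j) * x' i + ∑ j, a j * v j := by
        rw [sum_mul, ← sum_add_distrib]
        exact sum_congr rfl fun j _ => by ring
      rw [h4, hsum, one_mul] at h3
      rw [h2]
    · have e3 : ∀ p q : ZMod 2, p + q = 0 → p = q := by decide
      exact e3 _ _ h3
    · have e3 : ∀ p q : ZMod 2, p + q = 1 → p + 1 = q := by decide
      exact e3 _ _ h3
  have hd' := hd x' hx' y' hy' (fun h => hs'' (by rw [h]))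
  rw [← card_dset] at hd'
  refine hd'.trans ?_
  unfold hammingDist
  apply card_le_card_of_surjOn (fun i : linSet f a => (i : ι))
  intro i hi
  have hi1 : i ∈ dset x' y' := hi
  have hxy : x i ≠ y i := mem_dset.1 (hsub hi1)
  exact ⟨⟨i, hin i hi1⟩, mem_coe.2 (mem_filter.2 ⟨mem_univ _, hxy⟩), rfl⟩

end Pool.Agent.R181.CC
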